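import Mathlib
import Pool.Agent.S08053

set_option autoImplicit false

namespace Pool.Agent.Results.MP_05c474_gt.ConfluentOnto

/-- A compact connected metric space `X` is *arc-like* if for every `ε > 0` there is a continuous map
of `X` ONTO the unit interval `[0,1]` all of whose fibres have diameter less than `ε`. -/
def ArcLike (X : Type) [MetricSpace X] : Prop :=
  ∀ ε : ℝ, 0 < ε → ∃ g : X → Set.Icc (0 : ℝ) 1, Continuous g ∧ Function.Surjective g ∧
    ∀ t : Set.Icc (0 : ℝ) 1, Metric.diam (g ⁻¹' {t}) < ε

/-- A map `f` is *confluent* if for every subcontinuum `K` of `Y` (nonempty, compact, connected)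
and every connected component `C` of `f ⁻¹' K` (the component of a point `x` of `f ⁻¹' K`),
`f '' C = K`. -/
def Confluent {X Y : Type} [MetricSpace X] [MetricSpace Y] (f : X → Y) : Prop :=
  ∀ K : Set Y, IsCompact K → IsConnected K →
    ∀ x ∈ f ⁻¹' K, f '' connectedComponentIn (f ⁻¹' K) x = K

/-- Every nondegenerate confluent image of an arc-like continuum is arc-like. -/
theorem result :
    ∀ (X Y : Type) [MetricSpace X] [CompactSpace X] [ConnectedSpace X]
      [MetricSpace Y] [CompactSpace Y] [ConnectedSpace Y] [Nontrivial Y] (f : X → Y),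
      ArcLike X → Continuous f → Function.Surjective f → Confluent f → ArcLike Y := by
  intro X Y _ _ _ _ _ _ _ f hX hf hs hc ε hε
  obtain ⟨y1, y2, hy⟩ := exists_pair_ne Y
  have hd : 0 < dist y1 y2 := dist_pos.mpr hy
  have key := Pool.Agent.S08053.result X Y f (by
    intro δ hδ
    obtain ⟨g, hg, -, hfib⟩ := hX δ hδ
    refine ⟨fun x => (g x : ℝ), continuous_subtype_val.comp hg, ?_, ?_⟩
    · rintro _ ⟨x, rfl⟩
      exact (g x).2
    · intro t
      by_cases ht : t ∈ Set.Icc (0 : ℝ) 1
      · have : (fun x => (g x : ℝ)) ⁻¹' {t} = g ⁻¹' {⟨t, ht⟩} := by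
          ext x
          simp [Subtype.ext_iff]
        rw [this]
        exact hfib _
      · have : (fun x => (g x : ℝ)) ⁻¹' {t} = ∅ := by
          ext x
          simp only [Set.mem_preimage, Set.mem_singleton_iff, Set.mem_empty_iff_false, iff_false]
          intro hx
          exact ht (hx ▸ (g x).2)
        rw [this]
        simpa using hδ) hf hs hc (min ε (dist y1 y2)) (lt_min hε hd)
  obtain ⟨h, hh, hr, hfib⟩ := key
  -- the range of h is a compact interval
  have hcomp : IsCompact (Set.range h) := isCompact_range hh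
  have hconn : IsConnected (Set.range h) := isConnected_range hh
  obtain ⟨a, ha, hamin⟩ := hcomp.exists_isLeast hconn.nonempty
  obtain ⟨b, hb, hbmax⟩ := hcomp.exists_isGreatest hconn.nonempty
  have hab : a < b := by
    rcases lt_or_eq_of_le (hamin hb) with h1 | h1
    · exact h1
    · exfalso
      have hall : ∀ y, h y = a := fun y =>
        le_antisymm (h1 ▸ hbmax (Set.mem_range_self y)) (hamin (Set.mem_range_self y))
      have h2 := hfib a
      have h3 : dist y1 y2 ≤ Metric.diam (h ⁻¹' {a}) :=
        Metric.dist_le_diam_of_mem (Metric.isBounded_of_compactSpace) (hall y1) (hall y2)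
      have h4 : Metric.diam (h ⁻¹' {a}) < dist y1 y2 := lt_of_lt_of_le h2 (min_le_right _ _)
      linarith
  have hpos : 0 < b - a := sub_pos.mpr hab
  have hmem : ∀ y, (h y - a) / (b - a) ∈ Set.Icc (0 : ℝ) 1 := by
    intro y
    have h1 := hamin (Set.mem_range_self y)
    have h2 := hbmax (Set.mem_range_self y)
    constructor
    · exact div_nonneg (by linarith) hpos.le
    · rw [div_le_one hpos]
      linarith
  refine ⟨fun y => ⟨(h y - a) / (b - a), hmem y⟩, ?_, ?_, ?_⟩
  · exact Continuous.subtype_mk ((hh.sub continuous_const).div_const _) _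
  · rintro ⟨t, ht0, ht1⟩
    have hc' : Set.Icc a b ⊆ Set.range h := hconn.isPreconnected.Icc_subset ha hb
    have hm : a + t * (b - a) ∈ Set.Icc a b := by
      constructor
      · nlinarith
      · nlinarith
    obtain ⟨y, hy'⟩ := hc' hm
    refine ⟨y, ?_⟩
    apply Subtype.ext
    show (h y - a) / (b - a) = t
    rw [hy']
    field_simp
    ring
  · rintro ⟨t, ht⟩
    have : (fun y => (⟨(h y - a) / (b - a), hmem y⟩ : Set.Icc (0 : ℝ) 1)) ⁻¹' {⟨t, ht⟩} =
        h ⁻¹' {a + t * (b - a)} := by
      ext y
      simp only [Set.mem_preimage, Set.mem_singleton_iff, Subtype.mk.injEq]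
      constructor
      · intro h1
        rw [← h1]
        field_simp
        ring
      · intro h1
        rw [h1]
        field_simp
        ring
    rw [this]
    exact lt_of_lt_of_le (hfib _) (min_le_left _ _)

end Pool.Agent.Results.MP_05c474_gt.ConfluentOnto
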