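import Pool.Agent.Helper648.SZ.Prod

set_option autoImplicit false

namespace Pool.Agent.Results.MP_05c474_gt.SpanZeroImage

/-- Let `X` be an arc-like continuum and `f` a confluent mapping of `X` onto a continuum `Y`. Then
`Y` has span zero: every subcontinuum of `Y × Y` whose two projections coincide meets the
diagonal. -/
theorem result :
    ∀ (X Y : Type) [MetricSpace X] [CompactSpace X] [ConnectedSpace X]
      [MetricSpace Y] [CompactSpace Y] [ConnectedSpace Y] (f : X → Y),
      (∀ ε : ℝ, 0 < ε → ∃ g : X → ℝ, Continuous g ∧ Set.range g ⊆ Set.Icc 0 1 ∧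
          ∀ t : ℝ, Metric.diam (g ⁻¹' {t}) < ε) →
      Continuous f →
      Function.Surjective f →
      (∀ K : Set Y, IsCompact K → IsConnected K →
          ∀ x ∈ f ⁻¹' K, f '' connectedComponentIn (f ⁻¹' K) x = K) →
      ∀ Z : Set (Y × Y), IsClosed Z → IsConnected Z →
        Prod.fst '' Z = Prod.snd '' Z → ∃ y : Y, (y, y) ∈ Z := by
  intro X Y _ _ _ _ _ _ f hX hf hfs hfk Z hZ hZc he
  have hS : Pool.Agent.Helper739.CT.SpanZero X := by
    apply Pool.Agent.Helper648.SZ.spanZero_of_arcLike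
    intro ε hε
    obtain ⟨g, hg, -, hg'⟩ := hX ε hε
    exact ⟨g, hg, hg'⟩
  refine Pool.Agent.Helper648.SZ.final X Y f hf hfs
    (fun K hK hKc x hx => hfk K hK.isCompact hKc x hx) ?_ Z hZ hZc he
  intro W hW hWc hWe
  obtain ⟨p, hp, hpe⟩ := hS W hW.isCompact hWc hWe
  refine ⟨p.1, ?_⟩
  have : p = (p.1, p.1) := by ext <;> simp [hpe]
  rwa [this] at hp

end Pool.Agent.Results.MP_05c474_gt.SpanZeroImage
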